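import Mathlib

set_option autoImplicit false

/-!
# Tensor products of `2 × 2` matrices
-/

open Matrix Filter Topology

namespace Pool.Agent.Run7.h330.TP

/-- The tensor product `g_0 ⊗ ⋯ ⊗ g_(k-1)` of `2 × 2` matrices; its rows and columns are indexed by
the maps `Fin k → Fin 2`, and its entries are the products `∏ t, g_t (i t) (j t)`. -/
def tens {k : ℕ} {R : Type*} [CommRing R] (g : Fin k → Matrix (Fin 2) (Fin 2) R) :
    Matrix (Fin k → Fin 2) (Fin k → Fin 2) R :=
  fun i j => ∏ t, g t (i t) (j t)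

section alg

variable {k : ℕ} {R : Type*} [CommRing R]

lemma tens_apply (g : Fin k → Matrix (Fin 2) (Fin 2) R) (i j : Fin k → Fin 2) :
    tens g i j = ∏ t, g t (i t) (j t) := rfl

lemma tens_mul (A B : Fin k → Matrix (Fin 2) (Fin 2) R) :
    tens A * tens B = tens (fun t => A t * B t) := by
  ext i j
  simp only [mul_apply, tens_apply]
  rw [Finset.prod_univ_sum, Fintype.piFinset_univ]
  refine Finset.sum_congr rfl fun l _ => ?_
  rw [← Finset.prod_mul_distrib]

lemma tens_diagonal (a : Fin k → Fin 2 → R) :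
    tens (fun t => diagonal (a t)) = diagonal (fun i => ∏ t, a t (i t)) := by
  ext i j
  rw [tens_apply]
  by_cases h : i = j
  · subst h
    rw [diagonal_apply_eq]
    exact Finset.prod_congr rfl fun t _ => diagonal_apply_eq _ _
  · rw [diagonal_apply_ne _ h]
    obtain ⟨t, ht⟩ := Function.ne_iff.1 h
    exact Finset.prod_eq_zero (Finset.mem_univ t) (diagonal_apply_ne _ ht)

lemma tens_one : tens (fun _ : Fin k => (1 : Matrix (Fin 2) (Fin 2) R)) = 1 := by
  have h := tens_diagonal (R := R) (fun _ : Fin k => fun _ : Fin 2 => (1 : R))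
  simp only [Finset.prod_const_one] at h
  simpa using h

lemma tens_map {S : Type*} [CommRing S] (f : R →+* S) (g : Fin k → Matrix (Fin 2) (Fin 2) R) :
    (tens g).map f = tens (fun t => (g t).map f) := by
  ext i j
  simp only [map_apply, tens_apply, map_prod]

lemma isUnit_det_tens {g : Fin k → Matrix (Fin 2) (Fin 2) R} (h : ∀ t, IsUnit (g t).det) :
    IsUnit (tens g).det := by
  have h1 : tens g * tens (fun t => (g t)⁻¹) = 1 := by
    rw [tens_mul, ← tens_one]
    congr 1
    funext t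
    exact mul_nonsing_inv _ (h t)
  have h2 := congrArg det h1
  rw [det_mul, det_one] at h2
  exact IsUnit.of_mul_eq_one _ h2

end alg

lemma det_tens_ne {k : ℕ} {g : Fin k → Matrix (Fin 2) (Fin 2) ℝ} (h : ∀ t, (g t).det ≠ 0) :
    (tens g).det ≠ 0 :=
  (isUnit_det_tens fun t => isUnit_iff_ne_zero.2 (h t)).ne_zero

lemma abs_det_tens {k : ℕ} {g : Fin k → Matrix (Fin 2) (Fin 2) ℤ} (h : ∀ t, |(g t).det| = 1) :
    |(tens g).det| = 1 :=
  Int.isUnit_iff_abs_eq.1 (isUnit_det_tens fun t => Int.isUnit_iff_abs_eq.2 (h t))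

/-- flipping a coordinate -/
def flip {k : ℕ} (t : Fin k) : (Fin k → Fin 2) ≃ (Fin k → Fin 2) where
  toFun i := Function.update i t (i t + 1)
  invFun i := Function.update i t (i t + 1)
  left_inv i := by
    funext s
    by_cases h : s = t
    · subst h
      simp only [Function.update_self]
      have : ∀ x : Fin 2, x + 1 + 1 = x := by decide
      exact this _
    · simp [Function.update_of_ne h]
  right_inv i := by
    funext s
    by_cases h : s = t
    · subst h
      simp only [Function.update_self]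
      have : ∀ x : Fin 2, x + 1 + 1 = x := by decide
      exact this _
    · simp [Function.update_of_ne h]

lemma abs_prod_coord {k : ℕ} (t : Fin k) {a : Fin 2 → ℝ} (ha : |∏ r, a r| = 1) :
    |∏ i : Fin k → Fin 2, a (i t)| = 1 := by
  have h1 : (∏ i : Fin k → Fin 2, a (i t)) ^ 2 = ∏ _i : Fin k → Fin 2, ∏ r, a r := by
    have h2 : ∏ i : Fin k → Fin 2, a (i t) = ∏ i : Fin k → Fin 2, a (i t + 1) := by
      rw [← Equiv.prod_comp (flip t) (fun i => a (i t))]
      refine Finset.prod_congr rfl fun i _ => ?_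
      simp [flip]
    rw [sq]
    conv_lhs => rw [h2]
    conv_lhs => 
      arg 1
      rw [← h2]
    rw [← Finset.prod_mul_distrib]
    refine Finset.prod_congr rfl fun i _ => ?_
    rw [Fin.prod_univ_two]
    have : ∀ x : Fin 2, x = 0 ∨ x = 1 := by decide
    rcases this (i t) with h | h
    · rw [h]; rfl
    · rw [h, mul_comm]; rfl
  have h3 := congrArg abs h1
  rw [abs_pow] at h3
  have h4 : |∏ _i : Fin k → Fin 2, ∏ r, a r| = 1 := by
    rw [Finset.abs_prod]
    simp only [ha, Finset.prod_const_one]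
  rw [h4] at h3
  exact (pow_eq_one_iff_of_nonneg (abs_nonneg _) two_ne_zero).1 h3

lemma abs_prod_tens {k : ℕ} {a : Fin k → Fin 2 → ℝ} (ha : ∀ t, |∏ r, a t r| = 1) :
    |∏ i : Fin k → Fin 2, ∏ t, a t (i t)| = 1 := by
  rw [Finset.prod_comm, Finset.abs_prod]
  exact Finset.prod_eq_one fun t _ => abs_prod_coord t (ha t)

lemma tendsto_tens {k : ℕ} {A : ℕ → Fin k → Matrix (Fin 2) (Fin 2) ℝ}
    {B : Fin k → Matrix (Fin 2) (Fin 2) ℝ} (h : ∀ t, Tendsto (fun n => A n t) atTop (𝓝 (B t))) :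
    Tendsto (fun n => tens (A n)) atTop (𝓝 (tens B)) := by
  refine tendsto_pi_nhds.2 fun i => tendsto_pi_nhds.2 fun j => ?_
  simp only [tens_apply]
  refine tendsto_finset_prod _ fun t _ => ?_
  exact ((tendsto_pi_nhds.1 ((tendsto_pi_nhds.1 (h t)) (i t))) (j t))

/-- `ξ` is a limit slope of `g`: a row of a limit of matrices `diag(a_0, a_1) g γ`, `a_0 a_1 = ±1`,
`γ` integral of determinant `±1`, is proportional to `(ξ, 1)`. -/
def LimitSlope (g : Matrix (Fin 2) (Fin 2) ℝ) (ξ : ℝ) : Prop :=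
  ∃ (a : ℕ → Fin 2 → ℝ) (γ : ℕ → Matrix (Fin 2) (Fin 2) ℤ) (h : Matrix (Fin 2) (Fin 2) ℝ)
    (i : Fin 2), (∀ n, |∏ r, a n r| = 1) ∧ (∀ n, |(γ n).det| = 1) ∧
    Tendsto (fun n => diagonal (a n) * g * (γ n).map (Int.cast : ℤ → ℝ)) atTop (𝓝 h) ∧
    h i 1 ≠ 0 ∧ h i 0 = ξ * h i 1

/-- The vector of the products of the `ξ_t`. -/
def prods {k : ℕ} (ξ : Fin k → ℝ) (j : Fin k → Fin 2) : ℝ := ∏ t, if j t = 0 then ξ t else 1

/-- limit slopes of the factors give limits of the tensor product with a row proportional to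
the products of the slopes -/
theorem exists_limit {k : ℕ} {g : Fin k → Matrix (Fin 2) (Fin 2) ℝ} {ξ : Fin k → ℝ}
    (hξ : ∀ t, LimitSlope (g t) (ξ t)) :
    ∃ (a : ℕ → (Fin k → Fin 2) → ℝ) (γ : ℕ → Matrix (Fin k → Fin 2) (Fin k → Fin 2) ℤ)
      (h : Matrix (Fin k → Fin 2) (Fin k → Fin 2) ℝ) (i : Fin k → Fin 2) (s : ℝ),
      (∀ n, |∏ r, a n r| = 1) ∧ (∀ n, |(γ n).det| = 1) ∧
      Tendsto (fun n => diagonal (a n) * tens g * (γ n).map (Int.cast : ℤ → ℝ)) atTop (𝓝 h) ∧
      s ≠ 0 ∧ ∀ j, s * h i j = prods ξ j := by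
  choose a γ h i ha hγ hlim h1 h0 using hξ
  refine ⟨fun n r => ∏ t, a t n (r t), fun n => tens (fun t => γ t n), tens h, i,
    (∏ t, h t (i t) 1)⁻¹, fun n => abs_prod_tens fun t => ha t n,
    fun n => abs_det_tens fun t => hγ t n, ?_, inv_ne_zero (Finset.prod_ne_zero_iff.2 fun t _ => h1 t),
    ?_⟩
  · have e : (fun n => diagonal (fun r : Fin k → Fin 2 => ∏ t, a t n (r t)) * tens g *
        (tens (fun t => γ t n)).map (Int.cast : ℤ → ℝ)) =
        fun n => tens (fun t => diagonal (a t n) * g t * (γ t n).map (Int.cast : ℤ → ℝ)) := by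
      funext n
      rw [← tens_diagonal (fun t => a t n), tens_mul]
      have := tens_map (Int.castRingHom ℝ) (fun t => γ t n)
      have e2 : (tens (fun t => γ t n)).map (Int.cast : ℤ → ℝ) =
        tens (fun t => (γ t n).map (Int.cast : ℤ → ℝ)) := this
      rw [e2, tens_mul]
    rw [e]
    exact tendsto_tens hlim
  · intro j
    rw [tens_apply, prods, ← Finset.prod_inv_distrib, ← Finset.prod_mul_distrib]
    refine Finset.prod_congr rfl fun t _ => ?_
    have : ∀ x : Fin 2, x = 0 ∨ x = 1 := by decide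
    rcases this (j t) with hj | hj
    · rw [hj, if_pos rfl, h0 t]
      field_simp [h1 t]
    · rw [hj, if_neg (by decide), inv_mul_cancel₀ (h1 t)]

end Pool.Agent.Run7.h330.TP
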