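import Mathlib
import Pool.Agent.H715R2.LimitAlg
import Pool.Agent.Run7.h330.TP.Tensor

set_option autoImplicit false

/-!
# Values of tensor products at integer points
-/

open Matrix Filter Topology Kronecker

namespace Pool.Agent.Run7.h330.TP

/-- The coefficients of `c F` are integers, for some `c ≠ 0`, where `F` is the product of the linear
forms given by the rows of `g`. -/
def PropIntegral {ι : Type} [Fintype ι] (g : Matrix ι ι ℝ) : Prop :=
  ∃ c : ℝ, c ≠ 0 ∧ ∀ m : ι →₀ ℕ, ∃ z : ℤ, MvPolynomial.coeff m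
    (c • (∏ i : ι, ∑ j : ι, MvPolynomial.C (g i j) * MvPolynomial.X j : MvPolynomial ι ℝ)) = (z : ℝ)

lemma abs_det_int {ι : Type} [Fintype ι] [DecidableEq ι] {γ : Matrix ι ι ℤ} (h : |γ.det| = 1)
    {y : ι → ℤ} (hy : y ≠ 0) : γ *ᵥ y ≠ 0 := by
  intro h0
  have hu : IsUnit γ.det := Int.isUnit_iff_abs_eq.2 h
  apply hy
  have h1 := congrArg (fun v => γ⁻¹ *ᵥ v) h0
  simp only [mulVec_mulVec, nonsing_inv_mul _ hu, one_mulVec, mulVec_zero] at h1
  exact h1

/-- a rational relation between the products of limit slopes -/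
theorem relation_small {k n : ℕ} (hn : 0 < n) {g : Fin k → Matrix (Fin 2) (Fin 2) ℝ} {ξ : Fin k → ℝ}
    (hξ : ∀ t, LimitSlope (g t) (ξ t)) {y : (Fin k → Fin 2) → ℤ} (hy : y ≠ 0)
    (h0 : ∑ j, prods ξ j * (y j : ℝ) = 0) (G : Matrix (Fin n) (Fin n) ℝ) {ε : ℝ} (hε : 0 < ε) :
    ∃ x : (Fin k → Fin 2) × Fin n → ℤ, x ≠ 0 ∧
      |∏ i, ((tens g ⊗ₖ G) *ᵥ fun j => (x j : ℝ)) i| < ε := by
  obtain ⟨a, γ, h, i₀, s, ha, hγ, hlim, hs, hrow⟩ := exists_limit hξ
  set Y : (Fin k → Fin 2) → ℝ := fun j => (y j : ℝ) with hY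
  -- the product of the rows at `γ_n y`
  have hzero : (h *ᵥ Y) i₀ = 0 := by
    have h1 : s * (h *ᵥ Y) i₀ = 0 := by
      rw [mulVec, dotProduct, Finset.mul_sum, ← h0]
      refine Finset.sum_congr rfl fun j _ => ?_
      rw [← mul_assoc, hrow]
    exact (mul_eq_zero.1 h1).resolve_left hs
  set P : ℕ → ℝ := fun m => ∏ i, ((diagonal (a m) * tens g * (γ m).map (Int.cast : ℤ → ℝ)) *ᵥ Y) i
    with hP
  have hPlim : Tendsto P atTop (𝓝 0) := by
    have h1 : Tendsto P atTop (𝓝 (∏ i, (h *ᵥ Y) i)) := by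
      refine tendsto_finsetProd _ fun i _ => ?_
      have h2 : Continuous fun M : Matrix (Fin k → Fin 2) (Fin k → Fin 2) ℝ => (M *ᵥ Y) i := by
        fun_prop
      exact (h2.tendsto h).comp hlim
    rwa [Finset.prod_eq_zero (Finset.mem_univ i₀) hzero] at h1
  have hPabs : ∀ m, |P m| = |∏ i, (tens g *ᵥ ((γ m).map (Int.cast : ℤ → ℝ) *ᵥ Y)) i| := by
    intro m
    have h1 : P m = (∏ i, a m i) * ∏ i, (tens g *ᵥ ((γ m).map (Int.cast : ℤ → ℝ) *ᵥ Y)) i := by
      simp only [hP]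
      rw [← Finset.prod_mul_distrib]
      refine Finset.prod_congr rfl fun i _ => ?_
      rw [← mulVec_mulVec, ← mulVec_mulVec, mulVec_diagonal]
    rw [h1, abs_mul, ha m, one_mul]
  -- the constant
  set l₀ : Fin n := ⟨0, hn⟩ with hl₀
  set D : ℝ := |∏ l, G l l₀| ^ (Fintype.card (Fin k → Fin 2)) with hD
  have hlim2 : Tendsto (fun m => |P m| ^ n * D) atTop (𝓝 0) := by
    have h1 := ((hPlim.abs).pow n).mul_const D
    rw [abs_zero, zero_pow hn.ne', zero_mul] at h1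
    exact h1
  obtain ⟨m, hm⟩ := (hlim2.eventually (gt_mem_nhds hε)).exists
  refine ⟨fun p => if p.2 = l₀ then (γ m *ᵥ y) p.1 else 0, ?_, ?_⟩
  · intro h1
    apply abs_det_int (hγ m) hy
    funext j
    have := congrFun h1 (j, l₀)
    simpa using this
  · have e : ∀ i : (Fin k → Fin 2) × Fin n, ((tens g ⊗ₖ G) *ᵥ fun j : (Fin k → Fin 2) × Fin n =>
        (((if j.2 = l₀ then (γ m *ᵥ y) j.1 else 0 : ℤ)) : ℝ)) i =
        (tens g *ᵥ ((γ m).map (Int.cast : ℤ → ℝ) *ᵥ Y)) i.1 * G i.2 l₀ := by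
      intro i
      rw [mulVec, dotProduct, Fintype.sum_prod_type]
      simp only [kroneckerMap_apply]
      have h2 : ∀ j : Fin k → Fin 2, ∑ l : Fin n, tens g i.1 j * G i.2 l *
          (((if l = l₀ then (γ m *ᵥ y) j else 0 : ℤ)) : ℝ) =
          tens g i.1 j * ((γ m *ᵥ y) j : ℤ) * G i.2 l₀ := by
        intro j
        rw [Finset.sum_eq_single l₀]
        · rw [if_pos rfl]; ring
        · intro l _ hl
          rw [if_neg hl]; simp
        · intro h3
          exact absurd (Finset.mem_univ _) h3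
      rw [Finset.sum_congr rfl fun j _ => h2 j, ← Finset.sum_mul]
      congr 1
      rw [mulVec, dotProduct]
      refine Finset.sum_congr rfl fun j _ => ?_
      congr 1
      rw [mulVec, dotProduct, mulVec, dotProduct]
      push_cast
      rfl
    simp only [e]
    rw [Finset.prod_mul_distrib, Fintype.prod_prod_type, Fintype.prod_prod_type]
    simp only [Finset.prod_const, Finset.card_univ, Fintype.card_fin]
    rw [Finset.prod_pow, abs_mul, abs_pow, ← hPabs, abs_pow]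
    exact hm

/-- limits with an algebraic row, arbitrary finite index sets -/
theorem limit_alg_fintype {ι : Type} [Fintype ι] [DecidableEq ι] {d : ℕ} (e : ι ≃ Fin d) (hd : 3 ≤ d)
    {g h : Matrix ι ι ℝ} (hg : g.det ≠ 0) (a : ℕ → ι → ℝ) (γ : ℕ → Matrix ι ι ℤ)
    (ha : ∀ n, |∏ i, a n i| = 1) (hγ : ∀ n, |(γ n).det| = 1)
    (hlim : Tendsto (fun n => diagonal (a n) * g * (γ n).map (Int.cast : ℤ → ℝ)) atTop (𝓝 h))
    (i₀ : ι) (s : ℝ) (hs : s ≠ 0) (K : IntermediateField ℚ ℝ) [FiniteDimensional ℚ K]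
    (hK : Module.finrank ℚ K ≤ d) (hmem : ∀ j, s * h i₀ j ∈ K) :
    PropIntegral g ∨ ((∀ ε : ℝ, 0 < ε → ∃ x : ι → ℤ, x ≠ 0 ∧
        |∏ i, ∑ j, g i j * (x j : ℝ)| < ε) ∧
      ((∃ x : ι → ℤ, x ≠ 0 ∧ ∑ j, h i₀ j * (x j : ℝ) = 0) ∨
        ∀ t ε : ℝ, 0 < ε → ∃ x : ι → ℤ, x ≠ 0 ∧ |(∏ i, ∑ j, g i j * (x j : ℝ)) - t| < ε)) := by
  have hFF : ∀ x : Fin d → ℤ, H715R2.FF (g.submatrix e.symm e.symm) (H715R2.iR x) =
      ∏ i, ∑ j, g i j * (x (e j) : ℝ) := by
    intro x
    unfold H715R2.FF H715R2.iR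
    rw [← Equiv.prod_comp e]
    refine Finset.prod_congr rfl fun i _ => ?_
    rw [← Equiv.sum_comp e]
    refine Finset.sum_congr rfl fun j _ => ?_
    simp
  have hx : ∀ x : Fin d → ℤ, x ≠ 0 → (fun j => x (e j)) ≠ 0 := by
    intro x hx h0
    apply hx
    funext j
    have := congrFun h0 (e.symm j)
    simpa using this
  have hlim' : Tendsto (fun n => diagonal (fun i => a n (e.symm i)) * g.submatrix e.symm e.symm *
      ((γ n).submatrix e.symm e.symm).map (Int.cast : ℤ → ℝ)) atTop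
      (𝓝 (h.submatrix e.symm e.symm)) := by
    have e1 : (fun n => diagonal (fun i => a n (e.symm i)) * g.submatrix e.symm e.symm *
      ((γ n).submatrix e.symm e.symm).map (Int.cast : ℤ → ℝ)) =
      fun n => (diagonal (a n) * g * (γ n).map (Int.cast : ℤ → ℝ)).submatrix e.symm e.symm := by
      funext n
      have h1 : diagonal (fun i => a n (e.symm i)) = (diagonal (a n)).submatrix e.symm e.symm := by
        rw [submatrix_diagonal_equiv]; rfl
      rw [h1, submatrix_mul_equiv, ← submatrix_map, submatrix_mul_equiv]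
    rw [e1]
    refine tendsto_pi_nhds.2 fun i => tendsto_pi_nhds.2 fun j => ?_
    exact (tendsto_pi_nhds.1 ((tendsto_pi_nhds.1 hlim) (e.symm i))) (e.symm j)
  have key := H715R2.limit_alg' hd (g := g.submatrix e.symm e.symm) (h := h.submatrix e.symm e.symm)
    (by rw [det_submatrix_equiv_self]; exact hg) (fun n i => a n (e.symm i))
    (fun n => (γ n).submatrix e.symm e.symm)
    (fun n => by rw [Equiv.prod_comp e.symm (fun i => a n i)]; exact ha n)
    (fun n => by rw [det_submatrix_equiv_self]; exact hγ n) hlim' (e i₀) s hs K hK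
    (fun j => by simpa using hmem (e.symm j))
  rcases key with ⟨c, hc, hint⟩ | ⟨hsmall, hrest⟩
  · left
    refine ⟨c, hc, fun m => ?_⟩
    obtain ⟨z, hz⟩ := hint (m.mapDomain e)
    refine ⟨z, ?_⟩
    rw [← hz]
    have hren : H715R2.polyF (g.submatrix e.symm e.symm) = MvPolynomial.rename e
        (∏ i : ι, ∑ j : ι, MvPolynomial.C (g i j) * MvPolynomial.X j : MvPolynomial ι ℝ) := by
      unfold H715R2.polyF
      rw [map_prod, ← Equiv.prod_comp e]
      refine Finset.prod_congr rfl fun i _ => ?_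
      rw [map_sum, ← Equiv.sum_comp e]
      refine Finset.sum_congr rfl fun j _ => ?_
      simp
    rw [hren, ← map_smul, MvPolynomial.coeff_rename_mapDomain _ e.injective]
  · right
    refine ⟨fun ε hε => ?_, ?_⟩
    · obtain ⟨x, hx0, hx1⟩ := hsmall ε hε
      exact ⟨fun j => x (e j), hx x hx0, by rw [← hFF]; exact hx1⟩
    · rcases hrest with ⟨x, hx0, hx1⟩ | hdense
      · left
        refine ⟨fun j => x (e j), hx x hx0, ?_⟩
        rw [← hx1, ← Equiv.sum_comp e]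
        refine Finset.sum_congr rfl fun j _ => ?_
        simp
      · right
        intro t ε hε
        obtain ⟨x, hx0, hx1⟩ := hdense t ε hε
        exact ⟨fun j => x (e j), hx x hx0, by rw [← hFF]; exact hx1⟩

lemma prods_mem {k : ℕ} {ξ : Fin k → ℝ} {K : IntermediateField ℚ ℝ} (h : ∀ t, ξ t ∈ K)
    (j : Fin k → Fin 2) : prods ξ j ∈ K := by
  unfold prods
  refine prod_mem fun t _ => ?_
  split_ifs
  · exact h t
  · exact one_mem K

/-- the main theorem on tensor products whose limit slopes lie in a number field of degree at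
most `2 ^ k` -/
theorem tensor_alg {k : ℕ} (hk : 2 ≤ k) {g : Fin k → Matrix (Fin 2) (Fin 2) ℝ}
    (hg : ∀ t, (g t).det ≠ 0) {ξ : Fin k → ℝ} (hξ : ∀ t, LimitSlope (g t) (ξ t))
    (K : IntermediateField ℚ ℝ) (hfin : FiniteDimensional ℚ K) (hK : Module.finrank ℚ K ≤ 2 ^ k)
    (hmem : ∀ t, ξ t ∈ K) :
    PropIntegral (tens g) ∨ ((∀ ε : ℝ, 0 < ε → ∃ x : (Fin k → Fin 2) → ℤ, x ≠ 0 ∧
        |∏ i, ∑ j, tens g i j * (x j : ℝ)| < ε) ∧
      ((∃ x : (Fin k → Fin 2) → ℤ, x ≠ 0 ∧ ∑ j, prods ξ j * (x j : ℝ) = 0) ∨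
        ∀ t ε : ℝ, 0 < ε → ∃ x : (Fin k → Fin 2) → ℤ, x ≠ 0 ∧
          |(∏ i, ∑ j, tens g i j * (x j : ℝ)) - t| < ε)) := by
  obtain ⟨a, γ, h, i₀, s, ha, hγ, hlim, hs, hrow⟩ := exists_limit hξ
  have hd : 3 ≤ 2 ^ k := by
    calc 3 ≤ 2 ^ 2 := by norm_num
      _ ≤ 2 ^ k := Nat.pow_le_pow_right (by norm_num) hk
  have key := limit_alg_fintype (finFunctionFinEquiv (m := 2) (n := k)) hd (det_tens_ne hg) a γ ha hγ
    hlim i₀ s hs K hK (fun j => by rw [hrow]; exact prods_mem hmem j)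
  rcases key with h1 | ⟨h1, h2⟩
  · exact Or.inl h1
  · refine Or.inr ⟨h1, ?_⟩
    rcases h2 with ⟨x, hx0, hx1⟩ | h2
    · left
      refine ⟨x, hx0, ?_⟩
      have : s * ∑ j, h i₀ j * (x j : ℝ) = 0 := by rw [hx1, mul_zero]
      rw [← this, Finset.mul_sum]
      refine Finset.sum_congr rfl fun j _ => ?_
      rw [← mul_assoc, hrow]
    · exact Or.inr h2

end Pool.Agent.Run7.h330.TP
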