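import Mathlib
import Pool.Agent.Run7.h330.TP.Main

set_option autoImplicit false

/-!
# Integral tensor products have quadratic slopes
-/

open Matrix Filter Topology Polynomial

namespace Pool.Agent.Run7.h330.TP

lemma row_ne {g : Matrix (Fin 2) (Fin 2) ℝ} (h : g.det ≠ 0) (r : Fin 2) (h0 : g r 0 = 0)
    (h1 : g r 1 = 0) : False := by
  apply h
  rw [det_fin_two]
  have h2 : ∀ x : Fin 2, x = 0 ∨ x = 1 := by decide
  rcases h2 r with hr | hr
  · rw [hr] at h0 h1; rw [h0, h1]; ring
  · rw [hr] at h0 h1; rw [h0, h1]; ring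

/-- an integer point at which the rows do not vanish -/
lemma exists_point {g : Matrix (Fin 2) (Fin 2) ℝ} (h : g.det ≠ 0) :
    ∃ e : Fin 2 → ℤ, ∀ r, ∑ l, g r l * (e l : ℝ) ≠ 0 := by
  have hfin : (⋃ r : Fin 2, {N : ℤ | g r 0 + g r 1 * (N : ℝ) = 0}).Finite := by
    refine Set.finite_iUnion fun r => Set.Subsingleton.finite ?_
    intro N hN N' hN'
    have h1 : g r 0 + g r 1 * (N : ℝ) = 0 := hN
    have h2 : g r 0 + g r 1 * (N' : ℝ) = 0 := hN'
    by_cases h3 : g r 1 = 0
    · exact (row_ne h r (by rw [h3] at h1; linarith) h3).elim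
    · have h4 : g r 1 * ((N : ℝ) - N') = 0 := by linarith
      have h5 := (mul_eq_zero.1 h4).resolve_left h3
      have h6 : (N : ℝ) = N' := by linarith
      exact_mod_cast h6
  obtain ⟨N, hN⟩ := hfin.exists_notMem
  refine ⟨![1, N], fun r h0 => hN ?_⟩
  rw [Set.mem_iUnion]
  refine ⟨r, ?_⟩
  have : g r 0 + g r 1 * (N : ℝ) = 0 := by
    rw [Fin.sum_univ_two] at h0
    simpa using h0
  exact this

/-- the real polynomials with integer coefficients -/
noncomputable def intPolys : Subring ℝ[X] := (Polynomial.mapRingHom (Int.castRingHom ℝ)).range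

lemma C_int_mem (z : ℤ) : (C (z : ℝ) : ℝ[X]) ∈ intPolys :=
  ⟨C z, by simp⟩

lemma X_mem : (X : ℝ[X]) ∈ intPolys := ⟨X, by simp⟩

theorem quad_of_integral {k : ℕ} {g : Fin k → Matrix (Fin 2) (Fin 2) ℝ} (hg : ∀ t, (g t).det ≠ 0)
    (h : PropIntegral (tens g)) (t : Fin k) (i : Fin 2) :
    ∃ a b c : ℚ, (a ≠ 0 ∨ b ≠ 0 ∨ c ≠ 0) ∧
      (a : ℝ) * (g t i 0) ^ 2 + b * (g t i 0 * g t i 1) + c * (g t i 1) ^ 2 = 0 := by
  classical
  by_cases hgi : g t i 0 = 0
  · exact ⟨1, 0, 0, Or.inl one_ne_zero, by rw [hgi]; simp⟩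
  obtain ⟨c, hc, hint⟩ := h
  choose e he using fun s => exists_point (hg s)
  -- the substitution
  set φ : MvPolynomial (Fin k → Fin 2) ℝ →ₐ[ℝ] ℝ[X] := MvPolynomial.aeval (fun j : Fin k → Fin 2 =>
    ∏ s, (if s = t then (if j s = 0 then X else 1) else C ((e s (j s) : ℤ) : ℝ) : ℝ[X])) with hφ
  have hφX : ∀ j, φ (MvPolynomial.X j) ∈ intPolys := by
    intro j
    rw [hφ, MvPolynomial.aeval_X]
    refine prod_mem fun s _ => ?_
    split_ifs
    · exact X_mem
    · exact one_mem _
    · exact C_int_mem _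
  set P : MvPolynomial (Fin k → Fin 2) ℝ := ∏ i : Fin k → Fin 2, ∑ j : Fin k → Fin 2,
    MvPolynomial.C (tens g i j) * MvPolynomial.X j with hP
  have hmem : φ (c • P) ∈ intPolys := by
    rw [(c • P).as_sum, map_sum]
    refine sum_mem fun m _ => ?_
    obtain ⟨z, hz⟩ := hint m
    rw [hz, MvPolynomial.monomial_eq, map_mul, map_finsuppProd]
    refine mul_mem ?_ (prod_mem fun j _ => ?_)
    · have : φ (MvPolynomial.C (z : ℝ)) = C (z : ℝ) := by
        rw [hφ, MvPolynomial.aeval_C]; rfl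
      rw [this]
      exact C_int_mem z
    · change φ (MvPolynomial.X j ^ m j) ∈ intPolys
      rw [map_pow]
      exact pow_mem (hφX j) _
  -- its value
  set κ : (Fin k → Fin 2) → ℝ := fun i => ∏ s ∈ Finset.univ.erase t, ∑ l, g s (i s) l * (e s l : ℝ)
    with hκ
  have hκ0 : ∀ i, κ i ≠ 0 := fun i => Finset.prod_ne_zero_iff.2 fun s _ => he s (i s)
  have hval : φ (c • P) = C c * ∏ i : Fin k → Fin 2,
      ((C (g t (i t) 0) * X + C (g t (i t) 1)) * C (κ i)) := by
    rw [map_smul, hP, map_prod, smul_eq_C_mul]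
    congr 1
    refine Finset.prod_congr rfl fun i _ => ?_
    rw [map_sum]
    have h1 : ∀ j : Fin k → Fin 2, φ (MvPolynomial.C (tens g i j) * MvPolynomial.X j) =
        ∏ s, ((C (g s (i s) (j s)) : ℝ[X]) *
          (if s = t then (if j s = 0 then X else 1) else C ((e s (j s) : ℤ) : ℝ))) := by
      intro j
      rw [map_mul, hφ, MvPolynomial.aeval_C, MvPolynomial.aeval_X, Finset.prod_mul_distrib, tens_apply]
      congr 1
      rw [← map_prod]
      rfl
    rw [Finset.sum_congr rfl fun j _ => h1 j]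
    have h2 := Finset.prod_univ_sum (fun _ : Fin k => (Finset.univ : Finset (Fin 2)))
      (fun (s : Fin k) (l : Fin 2) => ((C (g s (i s) l) : ℝ[X]) *
          (if s = t then (if l = 0 then X else 1) else C ((e s l : ℤ) : ℝ))))
    rw [Fintype.piFinset_univ] at h2
    rw [← h2, ← Finset.mul_prod_erase _ _ (Finset.mem_univ t)]
    congr 1
    · rw [Fin.sum_univ_two, if_pos rfl, if_pos rfl, if_pos rfl, if_neg (by decide), mul_one]
    · rw [hκ, map_prod]
      refine Finset.prod_congr rfl fun s hs => ?_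
      rw [map_sum]
      refine Finset.sum_congr rfl fun l _ => ?_
      rw [if_neg (Finset.ne_of_mem_erase hs), C_mul]
  obtain ⟨p, hp⟩ := hmem
  have hp' : p.map (Int.castRingHom ℝ) = φ (c • P) := hp
  rw [hval] at hp'
  -- the root
  set α : ℝ := -(g t i 1) / g t i 0 with hα
  have hroot : (p.map (Int.castRingHom ℝ)).eval α = 0 := by
    rw [hp', eval_mul, eval_prod]
    have : ∏ j : Fin k → Fin 2, eval α ((C (g t (j t) 0) * X + C (g t (j t) 1)) * C (κ j)) = 0 := by
      refine Finset.prod_eq_zero (Finset.mem_univ (fun _ => i)) ?_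
      simp only [eval_mul, eval_add, eval_C, eval_X]
      rw [hα]
      have : g t i 0 * (-g t i 1 / g t i 0) + g t i 1 = 0 := by field_simp; ring
      rw [this, zero_mul]
    rw [this, mul_zero]
  have hpne : p.map (Int.castRingHom ℝ) ≠ 0 := by
    rw [hp']
    refine mul_ne_zero (by simpa using hc) (Finset.prod_ne_zero_iff.2 fun j _ => mul_ne_zero ?_ ?_)
    · intro h0
      have h1 := congrArg (fun q : ℝ[X] => q.coeff 0) h0
      have h2 := congrArg (fun q : ℝ[X] => q.coeff 1) h0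
      simp at h1 h2
      exact row_ne (hg t) (j t) h2 h1
    · simpa using hκ0 j
  have hp0 : p ≠ 0 := fun h0 => hpne (by rw [h0]; simp)
  have halg : IsAlgebraic ℚ α := by
    refine ⟨p.map (Int.castRingHom ℚ), ?_, ?_⟩
    · exact (Polynomial.map_ne_zero_iff (Int.cast_injective)).2 hp0
    · rw [aeval_def, eval₂_map]
      have : (algebraMap ℚ ℝ).comp (Int.castRingHom ℚ) = Int.castRingHom ℝ := by
        ext; simp
      rw [this, ← eval_map]
      exact hroot
  have hint' : IsIntegral ℚ α := halg.isIntegral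
  -- the conjugates are among two numbers
  have hdvd : minpoly ℚ α ∣ p.map (Int.castRingHom ℚ) := by
    refine minpoly.dvd ℚ α ?_
    rw [aeval_def, eval₂_map]
    have : (algebraMap ℚ ℝ).comp (Int.castRingHom ℚ) = Int.castRingHom ℝ := by
      ext; simp
    rw [this, ← eval_map]
    exact hroot
  set z : Fin 2 → ℂ := fun r => -(g t r 1 : ℂ) / (g t r 0 : ℂ) with hz
  have hconj : ∀ w ∈ (minpoly ℚ α).rootSet ℂ, w ∈ Set.range z := by
    intro w hw
    have h1 : aeval w (minpoly ℚ α) = 0 := (mem_rootSet.1 hw).2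
    obtain ⟨q, hq⟩ := hdvd
    have h2 : aeval w (p.map (Int.castRingHom ℚ)) = 0 := by rw [hq, map_mul, h1, zero_mul]
    rw [aeval_def, eval₂_map] at h2
    have h3 : (algebraMap ℚ ℂ).comp (Int.castRingHom ℚ) =
        (algebraMap ℝ ℂ).comp (Int.castRingHom ℝ) := by
      ext; simp
    rw [h3, ← eval₂_map, hp', eval₂_mul, eval₂_finsetProd] at h2
    have h4 : eval₂ (algebraMap ℝ ℂ) w (C c) ≠ 0 := by
      rw [eval₂_C]; simpa using hc
    obtain ⟨j, -, hj⟩ := Finset.prod_eq_zero_iff.1 ((mul_eq_zero.1 h2).resolve_left h4)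
    rw [eval₂_mul] at hj
    have h5 : eval₂ (algebraMap ℝ ℂ) w (C (κ j)) ≠ 0 := by
      rw [eval₂_C]; simpa using hκ0 j
    have h6 := (mul_eq_zero.1 hj).resolve_right h5
    simp only [eval₂_add, eval₂_mul, eval₂_C, eval₂_X, Complex.coe_algebraMap] at h6
    refine ⟨j t, ?_⟩
    have h7 : (g t (j t) 0 : ℂ) ≠ 0 := by
      intro h8
      rw [h8, zero_mul, zero_add] at h6
      exact row_ne (hg t) (j t) (by exact_mod_cast h8) (by exact_mod_cast h6)
    simp only [hz]
    rw [div_eq_iff h7]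
    linear_combination -h6
  have hdeg : (minpoly ℚ α).natDegree ≤ 2 := by
    have h1 : Fintype.card ((minpoly ℚ α).rootSet ℂ) = (minpoly ℚ α).natDegree :=
      card_rootSet_eq_natDegree (minpoly.irreducible hint').separable (IsAlgClosed.splits _)
    have h1' : Nat.card ((minpoly ℚ α).rootSet ℂ) = (minpoly ℚ α).natDegree := by
      rw [Nat.card_eq_fintype_card, h1]
    have h2 : ((minpoly ℚ α).rootSet ℂ) ⊆ Set.range z := hconj
    have h3 : Nat.card ((minpoly ℚ α).rootSet ℂ) ≤ Nat.card (Set.range z) :=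
      Nat.card_mono (Set.finite_range z) h2
    have h4 : Nat.card (Set.range z) ≤ Nat.card (Fin 2) :=
      Nat.card_le_card_of_surjective _ Set.rangeFactorization_surjective
    have h5 : Nat.card (Fin 2) = 2 := by simp
    omega
  -- the relation
  have hm0 : minpoly ℚ α ≠ 0 := minpoly.ne_zero hint'
  have hev : aeval α (minpoly ℚ α) = 0 := minpoly.aeval ℚ α
  rw [aeval_eq_sum_range' (lt_of_le_of_lt hdeg (by norm_num : 2 < 3))] at hev
  rw [Finset.sum_range_succ, Finset.sum_range_succ, Finset.sum_range_one] at hev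
  refine ⟨(minpoly ℚ α).coeff 0, -(minpoly ℚ α).coeff 1, (minpoly ℚ α).coeff 2, ?_, ?_⟩
  · by_contra hcon
    push Not at hcon
    apply hm0
    ext n
    rw [coeff_zero]
    rcases Nat.lt_or_ge n 3 with hn | hn
    · interval_cases n
      · exact hcon.1
      · exact neg_eq_zero.1 hcon.2.1
      · exact hcon.2.2
    · exact coeff_eq_zero_of_natDegree_lt (lt_of_le_of_lt hdeg hn)
  · have h1 : g t i 1 = -α * g t i 0 := by
      rw [hα]; field_simp
    rw [h1]
    simp only [Algebra.smul_def, eq_ratCast, pow_zero, mul_one, pow_one] at hev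
    push_cast
    linear_combination (g t i 0) ^ 2 * hev

end Pool.Agent.Run7.h330.TP
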