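import Mathlib
import Pool.Agent.N759.CFr.Basic
import Pool.Agent.Run7.h330.TP.Tensor

set_option autoImplicit false

/-!
# Limit slopes and complete quotients
-/

open Matrix Filter Topology
open Pool.Agent.N759.CFr

namespace Pool.Agent.Run7.h330.TP

lemma limitSlope_self {g : Matrix (Fin 2) (Fin 2) ℝ} {α : ℝ} (hdet : g.det ≠ 0)
    (hg : g 0 0 = α * g 0 1) : LimitSlope g α := by
  refine ⟨fun _ _ => 1, fun _ => 1, g, 0, fun n => by simp, fun n => by simp, ?_, ?_, hg⟩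
  · have : (fun _ : ℕ => diagonal (fun _ : Fin 2 => (1 : ℝ)) * g *
      (1 : Matrix (Fin 2) (Fin 2) ℤ).map (Int.cast : ℤ → ℝ)) = fun _ => g := by
      funext n
      have e : (1 : Matrix (Fin 2) (Fin 2) ℤ).map (Int.cast : ℤ → ℝ) = 1 := by
        ext i j
        by_cases h : i = j <;> simp [Matrix.one_apply, h]
      rw [e, mul_one]
      simp
    rw [this]
    exact tendsto_const_nhds
  · intro h0
    apply hdet
    rw [det_fin_two, hg, h0]
    ring

/-- a sequence of indices of complete quotients has a subsequence along which the normalised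
matrices converge -/
lemma limit_matrix {α : ℝ} (hα : Irrational α) {g : Matrix (Fin 2) (Fin 2) ℝ} (hdet : g.det ≠ 0)
    (hg : g 0 0 = α * g 0 1) (φ : ℕ → ℕ) {η : ℝ}
    (hφ : Tendsto (fun n => (cq α (φ n + 1))⁻¹) atTop (𝓝 η)) :
    ∃ (a : ℕ → Fin 2 → ℝ) (γ : ℕ → Matrix (Fin 2) (Fin 2) ℤ) (h : Matrix (Fin 2) (Fin 2) ℝ),
      (∀ n, |∏ r, a n r| = 1) ∧ (∀ n, |(γ n).det| = 1) ∧
      Tendsto (fun n => diagonal (a n) * g * (γ n).map (Int.cast : ℤ → ℝ)) atTop (𝓝 h) ∧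
      h 0 0 = 1 ∧ h 0 1 = η := by
  have hg01 : g 0 1 ≠ 0 := by
    intro h0
    apply hdet
    rw [det_fin_two, hg, h0]
    ring
  -- the normalised matrices
  set x : ℕ → ℝ := fun n => cq α (φ n + 1) with hx
  set v0 : ℕ → ℝ := fun n => lv α (g 0 0) (g 0 1) (φ n + 1) with hv0
  have hx1 : ∀ n, 1 < x n := fun n => one_lt_cq hα (φ n)
  have hv : ∀ n, v0 n ≠ 0 := by
    intro n
    simp only [hv0]
    rw [hg, lv_eq hα]
    exact div_ne_zero hg01 (pr_pos hα _).ne'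
  set a : ℕ → Fin 2 → ℝ := fun n => ![(v0 n * x n)⁻¹, v0 n * x n] with ha
  set γ : ℕ → Matrix (Fin 2) (Fin 2) ℤ := fun n => CC α (φ n + 1) with hγ
  set M : ℕ → Matrix (Fin 2) (Fin 2) ℝ :=
    fun n => diagonal (a n) * g * (γ n).map (Int.cast : ℤ → ℝ) with hM
  have e : ∀ n i, M n i 0 = a n i * lu α (g i 0) (g i 1) (φ n + 1) ∧
      M n i 1 = a n i * lv α (g i 0) (g i 1) (φ n + 1) := by
    intro n i
    have h1 := loc_eq α (g i 0) (g i 1) (φ n + 1)
    rw [← h1.1, ← h1.2]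
    constructor <;>
    · simp only [hM, hγ, mul_apply, Fin.sum_univ_two, map_apply, diagonal_apply]
      fin_cases i <;> simp <;> ring
  have hlu : ∀ n, lu α (g 0 0) (g 0 1) (φ n + 1) = x n * v0 n := by
    intro n
    simp only [hv0, hx]
    rw [hg]
    exact lu_eq hα _ _
  have e00 : ∀ n, M n 0 0 = 1 := by
    intro n
    rw [(e n 0).1, hlu n]
    have h1 := hv n
    have h2 : x n ≠ 0 := by linarith [hx1 n]
    simp only [ha, cons_val_zero]
    field_simp
  have e01 : ∀ n, M n 0 1 = (x n)⁻¹ := by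
    intro n
    rw [(e n 0).2]
    have h1 := hv n
    have h2 : x n ≠ 0 := by linarith [hx1 n]
    change (v0 n * x n)⁻¹ * v0 n = _
    field_simp
  set C : ℝ := |g 1 1| + |g 1 0 - pq α 0 * g 1 1| with hC
  have hC0 : 0 ≤ C := by positivity
  have hk : ∀ n, |v0 n| * (BB α (φ n + 1) * x n) ≤ 2 * |g 0 1| := by
    intro n
    simp only [hv0, hx]
    rw [hg]
    exact key_le hα _ _
  have hb : ∀ n (w : ℝ), |w| ≤ C * BB α (φ n + 1) → |v0 n * x n * w| ≤ 2 * |g 0 1| * C := by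
    intro n w hw
    rw [abs_mul, abs_mul, abs_of_pos (by linarith [hx1 n] : 0 < x n)]
    have h1 := hk n
    have h2 : 0 ≤ |v0 n| * x n := mul_nonneg (abs_nonneg _) (by linarith [hx1 n])
    calc |v0 n| * x n * |w| ≤ |v0 n| * x n * (C * BB α (φ n + 1)) :=
          mul_le_mul_of_nonneg_left hw h2
      _ = (|v0 n| * (BB α (φ n + 1) * x n)) * C := by ring
      _ ≤ _ := mul_le_mul_of_nonneg_right h1 hC0
  have e10 : ∀ n, |M n 1 0| ≤ 2 * |g 0 1| * C := by
    intro n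
    rw [(e n 1).1]
    exact hb n _ (abs_lu_le hα _ _ _)
  have e11 : ∀ n, |M n 1 1| ≤ 2 * |g 0 1| * C := by
    intro n
    rw [(e n 1).2]
    exact hb n _ (abs_lv_le hα _ _ _)
  -- compactness
  have hbd : ∀ n, ((M n 1 0, M n 1 1) : ℝ × ℝ) ∈ Metric.closedBall (0 : ℝ × ℝ) (2 * |g 0 1| * C) := by
    intro n
    rw [mem_closedBall_zero_iff, Prod.norm_def]
    exact max_le (by rw [Real.norm_eq_abs]; exact e10 n) (by rw [Real.norm_eq_abs]; exact e11 n)
  obtain ⟨⟨p, q⟩, -, ψ, hψ, hlim⟩ := tendsto_subseq_of_bounded Metric.isBounded_closedBall hbd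
  refine ⟨fun n => a (ψ n), fun n => γ (ψ n), !![1, η; p, q], ?_, ?_, ?_, rfl, rfl⟩
  · intro n
    rw [Fin.prod_univ_two]
    simp only [ha, cons_val_zero, cons_val_one]
    have h1 := hv (ψ n)
    have h2 : x (ψ n) ≠ 0 := by linarith [hx1 (ψ n)]
    rw [inv_mul_cancel₀ (mul_ne_zero h1 h2), abs_one]
  · intro n
    exact det_CC α _
  · refine tendsto_pi_nhds.2 fun i => tendsto_pi_nhds.2 fun j => ?_
    change Tendsto (fun n => M (ψ n) i j) atTop _
    fin_cases i <;> fin_cases j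
    · simp only [Fin.zero_eta, Fin.isValue, e00]
      exact tendsto_const_nhds
    · simp only [Fin.zero_eta, Fin.mk_one, Fin.isValue, e01]
      exact hφ.comp hψ.tendsto_atTop
    · exact (continuous_fst.tendsto _).comp hlim
    · exact (continuous_snd.tendsto _).comp hlim

/-- the limit points of the complete quotients are limit slopes -/
theorem limitSlope_cluster {α : ℝ} (hα : Irrational α) {g : Matrix (Fin 2) (Fin 2) ℝ}
    (hdet : g.det ≠ 0) (hg : g 0 0 = α * g 0 1) {ξ : ℝ} (hξ : MapClusterPt ξ atTop (cq α)) :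
    LimitSlope g ξ := by
  obtain ⟨ψ, hψ, hlim⟩ := hξ.tendsto_subseq
  have hψ1 : ∀ n, 1 ≤ ψ (n + 1) := fun n => (Nat.succ_le_succ (Nat.zero_le n)).trans (hψ.id_le _)
  have hlim1 : Tendsto (fun n => cq α (ψ (n + 1))) atTop (𝓝 ξ) :=
    hlim.comp (tendsto_add_atTop_nat 1)
  have h1 : 1 ≤ ξ := ge_of_tendsto' hlim1 fun n => (one_lt_cq' hα (hψ1 n)).le
  have h0 : ξ ≠ 0 := by linarith
  have hlim2 : Tendsto (fun n => (cq α ((ψ (n + 1) - 1) + 1))⁻¹) atTop (𝓝 ξ⁻¹) := by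
    have e : (fun n => (cq α ((ψ (n + 1) - 1) + 1))⁻¹) = fun n => (cq α (ψ (n + 1)))⁻¹ := by
      funext n
      rw [Nat.sub_add_cancel (hψ1 n)]
    rw [e]
    exact hlim1.inv₀ h0
  obtain ⟨a, γ, h, ha, hγ, hl, h00, h01⟩ := limit_matrix hα hdet hg (fun n => ψ (n + 1) - 1) hlim2
  exact ⟨a, γ, h, 0, ha, hγ, hl, by rw [h01]; exact inv_ne_zero h0,
    by rw [h00, h01, mul_inv_cancel₀ h0]⟩

/-- the limit slopes are closed under `ξ ↦ 1/ξ`, in the form of rows -/
theorem limitSlope_swap {g h : Matrix (Fin 2) (Fin 2) ℝ} {a : ℕ → Fin 2 → ℝ}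
    {γ : ℕ → Matrix (Fin 2) (Fin 2) ℤ} (ha : ∀ n, |∏ r, a n r| = 1) (hγ : ∀ n, |(γ n).det| = 1)
    (hlim : Tendsto (fun n => diagonal (a n) * g * (γ n).map (Int.cast : ℤ → ℝ)) atTop (𝓝 h))
    (i : Fin 2) (h0 : h i 0 ≠ 0) {ξ : ℝ} (h1 : h i 1 = ξ * h i 0) : LimitSlope g ξ := by
  set S : Matrix (Fin 2) (Fin 2) ℤ := !![0, 1; 1, 0] with hS
  refine ⟨a, fun n => γ n * S, h * S.map (Int.cast : ℤ → ℝ), i, ha, ?_, ?_, ?_, ?_⟩
  · intro n
    rw [det_mul, abs_mul, hγ n, hS, det_fin_two_of]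
    simp
  · have e : (fun n => diagonal (a n) * g * (γ n * S).map (Int.cast : ℤ → ℝ)) =
        fun n => (diagonal (a n) * g * (γ n).map (Int.cast : ℤ → ℝ)) * S.map (Int.cast : ℤ → ℝ) := by
      funext n
      have := Matrix.map_mul (L := γ n) (M := S) (f := Int.castRingHom ℝ)
      have e2 : (γ n * S).map (Int.cast : ℤ → ℝ) =
        (γ n).map (Int.cast : ℤ → ℝ) * S.map (Int.cast : ℤ → ℝ) := this
      rw [e2, Matrix.mul_assoc (diagonal (a n) * g)]
    rw [e]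
    exact hlim.mul_const _
  · simp [mul_apply, Fin.sum_univ_two, hS, h0]
  · simp [mul_apply, Fin.sum_univ_two, hS, h1]

/-- unbounded partial quotients: `0` is a limit slope -/
theorem limitSlope_unbounded {α : ℝ} (hα : Irrational α) {g : Matrix (Fin 2) (Fin 2) ℝ}
    (hdet : g.det ≠ 0) (hg : g 0 0 = α * g 0 1) (hub : ∀ N : ℕ, ∃ k, N ≤ k ∧ (N : ℤ) ≤ pq α k) :
    LimitSlope g 0 := by
  choose φ hφ1 hφ2 using fun n : ℕ => hub (n + 1)
  have hφ : ∀ n, 1 ≤ φ n := fun n => le_trans (by omega) (hφ1 n)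
  have hbig : Tendsto (fun n => cq α (φ n)) atTop atTop := by
    refine tendsto_atTop_mono (f := fun n : ℕ => (n : ℝ)) (fun n => ?_) tendsto_natCast_atTop_atTop
    have h1 := pq_le_cq α (φ n)
    have h2 : ((n + 1 : ℕ) : ℝ) ≤ pq α (φ n) := by exact_mod_cast hφ2 n
    push_cast at h2
    linarith
  have hlim2 : Tendsto (fun n => (cq α ((φ n - 1) + 1))⁻¹) atTop (𝓝 0) := by
    have e : (fun n => (cq α ((φ n - 1) + 1))⁻¹) = fun n => (cq α (φ n))⁻¹ := by
      funext n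
      rw [Nat.sub_add_cancel (hφ n)]
    rw [e]
    exact hbig.inv_tendsto_atTop
  obtain ⟨a, γ, h, ha, hγ, hl, h00, h01⟩ := limit_matrix hα hdet hg (fun n => φ n - 1) hlim2
  exact limitSlope_swap ha hγ hl 0 (by rw [h00]; exact one_ne_zero) (by rw [h01, zero_mul])

/-- the rows may be exchanged -/
lemma limitSlope_rows {g : Matrix (Fin 2) (Fin 2) ℝ} {ξ : ℝ}
    (h : LimitSlope (g.submatrix (fun i => i + 1) id) ξ) : LimitSlope g ξ := by
  obtain ⟨a, γ, h', i, ha, hγ, hlim, h1, h0⟩ := h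
  refine ⟨fun n r => a n (r + 1), γ, h'.submatrix (fun i => i + 1) id, i + 1, ?_, hγ, ?_, ?_, ?_⟩
  · intro n
    have := ha n
    rw [Fin.prod_univ_two] at this ⊢
    rw [mul_comm]
    exact this
  · refine tendsto_pi_nhds.2 fun r => tendsto_pi_nhds.2 fun j => ?_
    have h2 := (tendsto_pi_nhds.1 ((tendsto_pi_nhds.1 hlim) (r + 1))) j
    have e : (fun n => (diagonal (fun r => a n (r + 1)) * g * (γ n).map (Int.cast : ℤ → ℝ)) r j) =
        fun n => (diagonal (a n) * g.submatrix (fun i => i + 1) id *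
          (γ n).map (Int.cast : ℤ → ℝ)) (r + 1) j := by
      funext n
      have hr : ∀ x : Fin 2, x + 1 + 1 = x := by decide
      rw [Matrix.mul_assoc, Matrix.mul_assoc, diagonal_mul, diagonal_mul]
      congr 1
      simp only [mul_apply, submatrix_apply, id_eq, hr]
    rw [e]
    exact h2
  · have hr : ∀ x : Fin 2, x + 1 + 1 = x := by decide
    simpa [hr] using h1
  · have hr : ∀ x : Fin 2, x + 1 + 1 = x := by decide
    simpa [hr] using h0

lemma det_rows {g : Matrix (Fin 2) (Fin 2) ℝ} (h : g.det ≠ 0) :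
    (g.submatrix (fun i => i + 1) id).det ≠ 0 := by
  intro h0
  apply h
  rw [det_fin_two] at h0 ⊢
  simp only [submatrix_apply, id_eq] at h0
  have e0 : (0 : Fin 2) + 1 = 1 := rfl
  have e1 : (1 : Fin 2) + 1 = 0 := rfl
  rw [e0, e1] at h0
  linarith

/-- **Limit slopes and continued fractions.** -/
theorem slopes (g : Matrix (Fin 2) (Fin 2) ℝ) (hdet : g.det ≠ 0) (i : Fin 2) (α : ℝ)
    (hg : g i 0 = α * g i 1) :
    LimitSlope g α ∧ (Irrational α → (∀ ξ : ℝ, MapClusterPt ξ atTop (cq α) → LimitSlope g ξ) ∧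
      ((∀ N : ℕ, ∃ k, N ≤ k ∧ (N : ℤ) ≤ pq α k) → LimitSlope g 0)) := by
  have h2 : ∀ x : Fin 2, x = 0 ∨ x = 1 := by decide
  rcases h2 i with hi | hi
  · rw [hi] at hg
    exact ⟨limitSlope_self hdet hg, fun hα => ⟨fun ξ hξ => limitSlope_cluster hα hdet hg hξ,
      fun hub => limitSlope_unbounded hα hdet hg hub⟩⟩
  · rw [hi] at hg
    have hg' : (g.submatrix (fun i => i + 1) id) 0 0 = α * (g.submatrix (fun i => i + 1) id) 0 1 :=
      hg
    exact ⟨limitSlope_rows (limitSlope_self (det_rows hdet) hg'), fun hα =>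
      ⟨fun ξ hξ => limitSlope_rows (limitSlope_cluster hα (det_rows hdet) hg' hξ),
      fun hub => limitSlope_rows (limitSlope_unbounded hα (det_rows hdet) hg' hub)⟩⟩

end Pool.Agent.Run7.h330.TP
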